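import Pool.Agent.Helper20.QP.St1

set_option autoImplicit false

open Filter Topology Matrix Set Metric MeasureTheory
open scoped ComplexConjugate ENNReal

namespace Pool.Agent.Helper87.QP

open Pool.Agent.Helper35.PM (hs Mat SL IsDiscrete)
open Pool.Agent.Helper20.QD
open Pool.Agent.Helper20.QP

private theorem sinh_sq_mono {x y : ℝ} (hx : 0 ≤ x) (hxy : x ≤ y) :
    Real.sinh x ^ 2 ≤ Real.sinh y ^ 2 := by
  have h1 : 0 ≤ Real.sinh x := Real.sinh_nonneg_iff.mpr hx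
  have h2 : Real.sinh x ≤ Real.sinh y := Real.sinh_le_sinh.mpr hxy
  exact pow_le_pow_left₀ h1 h2 2

private theorem sinh_sq_strict {x y : ℝ} (hx : 0 ≤ x) (hxy : x < y) :
    Real.sinh x ^ 2 < Real.sinh y ^ 2 := by
  have h1 : 0 ≤ Real.sinh x := Real.sinh_nonneg_iff.mpr hx
  have h2 : Real.sinh x < Real.sinh y := Real.sinh_lt_sinh.mpr hxy
  exact pow_lt_pow_left₀ h2 h1 (by norm_num)

private theorem dl_meas (z : ℂ) : Measurable (fun w => dl z w) := by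
  unfold dl
  exact (((measurable_const.sub measurable_id).norm).pow_const 2).div
    (measurable_const.mul (measurable_const.sub ((measurable_id.norm).pow_const 2)))

theorem hUCC (hSUB : StSUB) (hMET : StMET) (hHY1 : StHY1) (hBLL : StBLL) (hPKG : StPKG) :
    StUCC := by
  intro A0 ε hε
  -- constants
  obtain ⟨r, hr0, hr8, hrε⟩ : ∃ r : ℝ, 0 < r ∧ r ≤ 1 / 8 ∧ Real.sinh r ^ 2 ≤ ε := by
    have h1 : 0 < Real.arsinh (Real.sqrt ε) := Real.arsinh_pos_iff.mpr (Real.sqrt_pos.mpr hε)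
    refine ⟨min (1 / 8) (Real.arsinh (Real.sqrt ε)), lt_min (by norm_num) h1, min_le_left _ _, ?_⟩
    have h2 := sinh_sq_mono (lt_min (by norm_num) h1 : (0 : ℝ) < _).le
      (min_le_right (1 / 8) (Real.arsinh (Real.sqrt ε)))
    rw [Real.sinh_arsinh, Real.sq_sqrt hε.le] at h2
    exact h2
  set s0 : ℝ := Real.sinh (r / 2) ^ 2 with hs0
  have hs0p : 0 < s0 := by
    have : 0 < Real.sinh (r / 2) := Real.sinh_pos_iff.mpr (by positivity)
    positivity
  have hpi := Real.pi_pos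
  set Rm : ℝ := |A0| / (4 * Real.pi * s0) + 1 with hRm
  have hRm0 : 0 ≤ Rm := by positivity
  refine ⟨Real.sinh (Rm / 2) ^ 2, by positivity, ?_⟩
  intro Γ _ σ F0 hσ hF hA hT z hz
  obtain ⟨hinv, hdist, hseg, -, -, hball, -⟩ := hMET
  have hdinv : ∀ (γ : Γ) (z w : ℂ), z ∈ D → w ∈ D → hd (mob (σ γ) z) (mob (σ γ) w) = hd z w := by
    intro γ z w hz hw
    unfold hd
    rw [hinv (σ γ) z w (hσ.su γ) hz hw]
  have hmD : ∀ (γ : Γ) (z : ℂ), z ∈ D → mob (σ γ) z ∈ D := fun γ z hz =>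
    ((hSUB.1 (σ γ) (hσ.su γ)).2.2.1).mapsTo hz
  have hDD : ∀ z : ℂ, z ∈ D → z ∈ DD := fun z hz => ball_subset_closedBall hz
  have h0D : (0 : ℂ) ∈ D := by simp
  have hinvm : ∀ (γ : Γ) (z : ℂ), z ∈ D → mob (σ γ⁻¹) (mob (σ γ) z) = z := by
    intro γ z hz
    rw [map_inv]
    exact (hSUB.1 (σ γ) (hσ.su γ)).2.2.2.2 z (hDD z hz)
  have hcomp : ∀ (γ δ : Γ) (z : ℂ), z ∈ D → mob (σ (γ * δ)) z = mob (σ γ) (mob (σ δ) z) := by
    intro γ δ z hz
    rw [map_mul]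
    exact (hSUB.2.2.2.1 (σ γ) (σ δ) z ((hSUB.1 (σ δ) (hσ.su δ)).2.1 z (hDD z hz))).1
  -- the minimum
  set f : Γ → ℝ := fun γ => dl 0 (mob (σ γ) z) with hf
  have hdlnn : ∀ w : ℂ, w ∈ D → 0 ≤ dl 0 w := by
    intro w hw
    rw [← (hdist 0 w 0 h0D hw h0D).2.1]
    positivity
  have hTfin : {γ : Γ | f γ ≤ f 1}.Finite := by
    have hv0 : 0 ≤ f 1 := hdlnn _ (hmD 1 z hz)
    set q : ℝ := Real.sqrt (f 1 / (1 + f 1)) with hq
    have hq1 : q < 1 := by
      rw [hq, Real.sqrt_lt' (by norm_num), one_pow, div_lt_one (by linarith)]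
      linarith
    have hz1 : ‖z‖ < 1 := by simpa using hz
    set ρ : ℝ := max q ‖z‖ with hρ
    have hρ1 : ρ < 1 := max_lt hq1 hz1
    apply (hσ.discrete (8 / (1 - ρ) ^ 3)).subset
    intro γ hγ
    have hγ' : dl 0 (mob (σ γ) z) ≤ f 1 := hγ
    have h1 := (hball (mob (σ γ) z) (f 1) (hmD γ z hz) hv0).mp hγ'
    have h2 : ‖mob (σ γ) z‖ ≤ q := Real.le_sqrt_of_sq_le h1
    exact hSUB.2.2.2.2.2 (σ γ) z ρ (hσ.su γ) hρ1 (le_max_right _ _) (h2.trans (le_max_left _ _))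
  obtain ⟨γ0, hγ0, hmin⟩ := exists_min_image {γ : Γ | f γ ≤ f 1} f hTfin
    ⟨1, show f 1 ≤ f 1 from le_refl _⟩
  have hmin' : ∀ γ : Γ, f γ0 ≤ f γ := by
    intro γ
    rcases le_total (f γ) (f 1) with h | h
    · exact hmin γ h
    · exact le_trans hγ0 h
  refine ⟨γ0, ?_⟩
  set z' : ℂ := mob (σ γ0) z with hz'
  have hz'D : z' ∈ D := hmD γ0 z hz
  have hmin2 : ∀ γ : Γ, dl 0 z' ≤ dl 0 (mob (σ γ) z') := by
    intro γ
    have h := hmin' (γ * γ0)
    simp only [hf] at h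
    rw [hcomp γ γ0 z hz] at h
    exact h
  set R : ℝ := hd 0 z' with hR
  have hR0 : 0 ≤ R := (hdist 0 z' 0 h0D hz'D h0D).1
  have hmin3 : ∀ γ : Γ, R ≤ hd (mob (σ γ) 0) z' := by
    intro γ
    have h1 : hd (mob (σ γ) 0) z' = hd 0 (mob (σ γ⁻¹) z') := by
      have h2 := hdinv γ⁻¹ (mob (σ γ) 0) z' (hmD γ 0 h0D) hz'D
      rw [hinvm γ 0 h0D] at h2
      exact h2.symm
    rw [h1, hR]
    unfold hd
    have h3 := Real.sqrt_le_sqrt (hmin2 γ⁻¹)
    have h4 := Real.arsinh_le_arsinh.mpr h3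
    linarith
  -- the points
  set J : ℕ := ⌊R⌋₊ with hJ
  have hJR : (J : ℝ) ≤ R := Nat.floor_le hR0
  have hRJ : R < J + 1 := Nat.lt_floor_add_one R
  have hx : ∀ j : Fin J, ∃ x ∈ D, hd 0 x = (j : ℝ) + 1 ∧ hd x z' = R - ((j : ℝ) + 1) := by
    intro j
    have h1 : ((j : ℕ) : ℝ) + 1 ≤ R := by
      have h2 : (j : ℕ) + 1 ≤ J := j.isLt
      have h3 : (((j : ℕ) + 1 : ℕ) : ℝ) ≤ (J : ℝ) := by exact_mod_cast h2
      push_cast at h3
      linarith
    exact hseg 0 z' ((j : ℝ) + 1) h0D hz'D (by positivity) h1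
  choose x hxD hx1 hx2 using hx
  have hlow : ∀ (γ : Γ) (j : Fin J), (j : ℝ) + 1 ≤ hd (mob (σ γ) 0) (x j) := by
    intro γ j
    have h1 := (hdist (mob (σ γ) 0) z' (x j) (hmD γ 0 h0D) hz'D (hxD j)).2.2.2.2.2
    have h2 := hmin3 γ
    have h3 := hx2 j
    linarith
  set P : Fin J → Set ℂ := fun j => {w | w ∈ D ∧ dl (x j) w < s0} with hP
  have hPm : ∀ j, MeasurableSet (P j) ∧ P j ⊆ D := by
    intro j
    refine ⟨?_, fun w hw => hw.1⟩
    exact measurableSet_ball.inter (measurableSet_lt (dl_meas (x j)) measurable_const)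
  have hlt : ∀ (j : Fin J) (w : ℂ), w ∈ P j → hd (x j) w < r := by
    intro j w hw
    by_contra hcon
    push Not at hcon
    have h1 := (hdist (x j) w 0 (hxD j) hw.1 h0D).2.1
    have h2 := sinh_sq_mono (by positivity : (0 : ℝ) ≤ r / 2)
      (by linarith : r / 2 ≤ hd (x j) w / 2)
    have h3 := hw.2
    linarith
  have hdisj : ∀ (i j : Fin J) (γ : Γ), (i ≠ j ∨ γ ≠ 1) → Disjoint (mob (σ γ) '' P i) (P j) := by
    intro i j γ hij
    rw [Set.disjoint_left]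
    rintro _ ⟨w, hw, rfl⟩ hy
    have hwD : w ∈ D := hw.1
    have hyD : mob (σ γ) w ∈ D := hmD γ w hwD
    have hxiD : mob (σ γ) (x i) ∈ D := hmD γ (x i) (hxD i)
    have h1 : hd (mob (σ γ) (x i)) (mob (σ γ) w) < r := by
      rw [hdinv γ (x i) w (hxD i) hwD]
      exact hlt i w hw
    have h2 := hlt j _ hy
    have h3 := (hdist (mob (σ γ) (x i)) (x j) (mob (σ γ) w) hxiD (hxD j) hyD).2.2.2.2.2
    have h4 := (hdist (x j) (mob (σ γ) w) 0 (hxD j) hyD h0D).2.2.1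
    have h5 : hd (mob (σ γ) (x i)) (x j) < 2 * r := by linarith
    -- first inequality
    have h6 := hlow γ j
    have h7 := (hdist (mob (σ γ) 0) (x j) (mob (σ γ) (x i)) (hmD γ 0 h0D) (hxD j)
      hxiD).2.2.2.2.2
    rw [hdinv γ 0 (x i) h0D (hxD i), hx1 i] at h7
    have h8 : (j : ℝ) < (i : ℝ) + 1 := by linarith
    -- second inequality
    have h9 := hlow γ⁻¹ i
    have h10 : hd (mob (σ γ⁻¹) 0) (x i) = hd 0 (mob (σ γ) (x i)) := by
      have h11 := hdinv γ⁻¹ 0 (mob (σ γ) (x i)) h0D hxiD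
      rw [hinvm γ (x i) (hxD i)] at h11
      exact h11
    have h12 := (hdist 0 (mob (σ γ) (x i)) (x j) h0D hxiD (hxD j)).2.2.2.2.2
    have h13 := (hdist (x j) (mob (σ γ) (x i)) 0 (hxD j) hxiD h0D).2.2.1
    rw [h10] at h9
    rw [hx1 j] at h12
    have h14 : (i : ℝ) < (j : ℝ) + 1 := by linarith
    have h15 : (i : ℕ) = (j : ℕ) := by
      have h16 : (j : ℕ) < (i : ℕ) + 1 := by exact_mod_cast h8
      have h17 : (i : ℕ) < (j : ℕ) + 1 := by exact_mod_cast h14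
      omega
    have hijeq : i = j := Fin.ext h15
    subst hijeq
    have hγ1 : γ ≠ 1 := by
      rcases hij with h | h
      · exact absurd rfl h
      · exact h
    have h18 := hT γ hγ1
    have h19 := hHY1.2.1 (σ γ) (x i) (hσ.su γ) (hxD i)
    have h20 := (hdist (x i) (mob (σ γ) (x i)) 0 (hxD i) hxiD h0D).2.1
    have h21 := (hdist (x i) (mob (σ γ) (x i)) 0 (hxD i) hxiD h0D).1
    have h22 : hd (x i) (mob (σ γ) (x i)) / 2 < r := by
      rw [h13]
      linarith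
    have h23 := sinh_sq_strict (by positivity) h22
    linarith
  obtain ⟨hpk, hfin, hint⟩ := hPKG Γ σ F0 hσ hF
  have hsum := hpk (Fin J) P hPm hdisj
  have hareach : ∀ j, ar (P j) = ENNReal.ofReal (4 * Real.pi * s0) := fun j =>
    hBLL.2 (x j) s0 (hxD j) hs0p
  rw [Finset.sum_congr rfl (fun j _ => hareach j), Finset.sum_const, Finset.card_univ,
    Fintype.card_fin, nsmul_eq_mul] at hsum
  have hreal : (J : ℝ) * (4 * Real.pi * s0) ≤ A0 := by
    have h1 := ENNReal.toReal_mono hfin hsum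
    rw [ENNReal.toReal_mul, ENNReal.toReal_natCast, ENNReal.toReal_ofReal (by positivity),
      hint] at h1
    exact h1.trans hA
  have hJle : (J : ℝ) ≤ |A0| / (4 * Real.pi * s0) := by
    rw [le_div_iff₀ (by positivity)]
    exact hreal.trans (le_abs_self _)
  have hRle : R ≤ Rm := by linarith
  have h1 := (hdist 0 z' 0 h0D hz'D h0D).2.1
  rw [← h1]
  exact sinh_sq_mono (by positivity) (by linarith)

end Pool.Agent.Helper87.QP
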